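import Pool.Agent.Mg.F06f5ada.G643a73

open Polynomial

namespace Pool.Agent.Results.MP_06f5ad_nt.CubicCounter

/-- There is a transcendental real `ζ` such that for every `c > 0` only finitely many real
algebraic `α` of degree exactly `3` satisfy `|ζ - α| ≤ c H(α) ^ (-4)`. -/
theorem result : ∃ ζ : ℝ, Transcendental ℚ ζ ∧ ∀ c : ℝ, 0 < c →
    Set.Finite {α : ℝ | ∃ P : ℤ[X], Irreducible P ∧ P.natDegree = 3 ∧ 0 < P.leadingCoeff ∧
      aeval α P = 0 ∧ |ζ - α| ≤ c / P.supNorm ^ 4} :=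
  Pool.Agent.MP_06f5ad_nt.Q2.cubic_counter

end Pool.Agent.Results.MP_06f5ad_nt.CubicCounter
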