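import Pool.Agent.MP_06f5ad_nt.Ev.D

open Polynomial

namespace Pool.Agent.Results.MP_06f5ad_nt.EvenCounter

/-- There is a transcendental real `ζ` such that for every even `n ≥ 4` and every `c > 0` only
finitely many real algebraic `α` of degree exactly `n` satisfy `|ζ - α| ≤ c H(α) ^ (-n - 1)`. -/
theorem result : ∃ ζ : ℝ, Transcendental ℚ ζ ∧ ∀ n : ℕ, Even n → 4 ≤ n → ∀ c : ℝ, 0 < c →
    Set.Finite {α : ℝ | ∃ P : ℤ[X], Irreducible P ∧ P.natDegree = n ∧ 0 < P.leadingCoeff ∧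
      aeval α P = 0 ∧ |ζ - α| ≤ c / P.supNorm ^ (n + 1)} :=
  Pool.Agent.MP_06f5ad_nt.Ev.even_counter

end Pool.Agent.Results.MP_06f5ad_nt.EvenCounter
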