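import Pool.Agent.Mg.F06f5adq.G9fba2b

open Polynomial

namespace Pool.Agent.Results.MP_06f5ad_nt.FourFifths

/-- For `n ≥ 3` and transcendental real `ζ` there are infinitely many real algebraic `α` of degree
exactly `n` with `0 < |ζ - α| ≤ H(α) ^ (-w - 1)`, `w = 4 n / 5`. -/
theorem result (n : ℕ) (hn : 3 ≤ n) (ζ : ℝ) (hζ : Transcendental ℚ ζ) :
    Set.Infinite {α : ℝ | ∃ P : ℤ[X], Irreducible P ∧ P.natDegree = n ∧ 0 < P.leadingCoeff ∧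
      aeval α P = 0 ∧ 0 < |ζ - α| ∧ |ζ - α| ≤ P.supNorm ^ (-(4 * (n : ℝ) / 5) - 1)} :=
  Pool.Agent.MP_06f5ad_nt.four_fifths n hn ζ hζ

end Pool.Agent.Results.MP_06f5ad_nt.FourFifths
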